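import Pool.Agent.Helper49.DP.Stmt

set_option autoImplicit false

namespace Pool.Agent.Results.MP_f60bb9_ag.GeneralEqualsGeneric

open Pool.Helper49.DP

universe u

/-- The general determinantal pair has the codepth of the generic one.  Let `k` be a field,
`r + s = t + 1` with `r, s ≥ 1`, and `s ≤ m`.  For a `t × (m + 1)` matrix `X` let `I_A` be the ideal of
its `s × s` minors and `I_B` the ideal of those avoiding the last column.  There is a number `e`, the
codepth of `Hom (I_B, I_A / I_B)` for the matrix of `t * (m + 1)` independent variables, such that for all `n`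
with `n ≥ r * (m + 2 - s) = codim A` and `n ≥ r * (m + 1 - s) + e + 2 = codim B + e + 2`, and all positive
degrees `dg i j`, the codepth of `Hom (I_B, I_A / I_B)` is `e` for a general matrix of forms of degrees `dg i j`
in `n` variables: for all families of coefficients outside the zero set of a nonzero polynomial.
Codepths are taken after localisation at the origin. -/
theorem result (k : Type u) [Field k] (t m r s : ℕ) (hr : 0 < r) (hs : 0 < s)
    (hrs : r + s = t + 1) (hsm : s ≤ m) :
    ∃ e : ℕ, PairCodepth s (genMat t m k) e ∧
      ∀ (n : ℕ) (dg : Fin t → Fin (m + 1) → ℕ), (∀ i j, 0 < dg i j) →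
        r * (m + 2 - s) ≤ n → r * (m + 1 - s) + e + 2 ≤ n → GeneralCodepth k s n dg e := by
  obtain ⟨e, he⟩ := exists_codepth_generic k hs hr hrs hsm
  exact ⟨e, (pairCodepth_genMat t m s e k).2 he,
    fun n dg hdg hn hn' => codepth_eq_generic hs hr hrs hsm hdg hn hn' he⟩

end Pool.Agent.Results.MP_f60bb9_ag.GeneralEqualsGeneric
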